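import Pool.Agent.helper62.MS.SpecG
import Pool.Agent.helper21.EN.XDS

/-!
# Row `ms:BXF` (MP_07c750_an): smooth indicator functions of one box
-/

open scoped MatrixGroups ContDiff Topology UpperHalfPlane ComplexConjugate
open UpperHalfPlane MeasureTheory Filter Set

set_option autoImplicit false

namespace Pool.Agent.MS

open Pool.Agent.RS

/-! ## The cut-off function -/

theorem BXF_kappa : ∃ (κ κ' : ℝ → ℝ) (M : ℝ), 0 < M ∧ Continuous κ ∧ Continuous κ' ∧ (∀ x, HasDerivAt κ (κ' x) x) ∧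
    (∀ x, 0 ≤ κ x) ∧ (∀ x, κ x ≤ 1) ∧ (∀ x, |x| ≤ 1 → κ x = 1) ∧ (∀ x, 2 ≤ |x| → κ x = 0) ∧ ∀ x, |κ' x| ≤ M := by
  let f : ContDiffBump (0 : ℝ) := ⟨1, 2, zero_lt_one, one_lt_two⟩
  have hf : ContDiff ℝ 1 (f : ℝ → ℝ) := f.contDiff
  have hc : Continuous (deriv (f : ℝ → ℝ)) := hf.continuous_deriv le_rfl
  obtain ⟨M, hM⟩ := hc.bounded_above_of_compact_support f.hasCompactSupport.deriv
  refine ⟨f, deriv f, |M| + 1, by positivity, f.continuous, hc, ?_, fun x => f.nonneg, fun x => f.le_one, ?_, ?_, ?_⟩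
  · intro x
    exact (hf.differentiable one_ne_zero x).hasDerivAt
  · intro x hx
    apply f.one_of_mem_closedBall
    rw [Metric.mem_closedBall, Real.dist_eq, sub_zero]
    exact hx
  · intro x hx
    apply f.zero_of_le_dist
    rw [Real.dist_eq, sub_zero]
    exact hx
  · intro x
    have h1 := hM x
    rw [Real.norm_eq_abs] at h1
    exact h1.trans ((le_abs_self M).trans (by linarith))

section
variable (κ κ' : ℝ → ℝ) (a e : ℝ)

/-- the cut-off of a box in terms of the entries -/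
noncomputable def BXF_F (p q r s : ℝ) : ℝ := κ ((p - 1) / a) * κ ((q - 1) / a) * κ (r / a) * κ (e * s / a)

/-- the derivative of the cut-off of a box -/
noncomputable def BXF_D (p q r s p' q' r' s' : ℝ) : ℝ :=
  κ' ((p - 1) / a) * (p' / a) * κ ((q - 1) / a) * κ (r / a) * κ (e * s / a) +
  κ ((p - 1) / a) * (κ' ((q - 1) / a) * (q' / a)) * κ (r / a) * κ (e * s / a) +
  κ ((p - 1) / a) * κ ((q - 1) / a) * (κ' (r / a) * (r' / a)) * κ (e * s / a) +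
  κ ((p - 1) / a) * κ ((q - 1) / a) * κ (r / a) * (κ' (e * s / a) * (e * s' / a))

end

theorem BXF_deriv {κ κ' : ℝ → ℝ} (hκ : ∀ x, HasDerivAt κ (κ' x) x) (a e : ℝ) {p q r s : ℝ → ℝ} {p' q' r' s' : ℝ}
    (hp : HasDerivAt p p' 0) (hq : HasDerivAt q q' 0) (hr : HasDerivAt r r' 0) (hs : HasDerivAt s s' 0) :
    HasDerivAt (fun t => BXF_F κ a e (p t) (q t) (r t) (s t)) (BXF_D κ κ' a e (p 0) (q 0) (r 0) (s 0) p' q' r' s') 0 := by
  have h1 : HasDerivAt (fun t => κ ((p t - 1) / a)) (κ' ((p 0 - 1) / a) * (p' / a)) 0 :=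
    (hκ _).comp (0 : ℝ) ((hp.sub_const 1).div_const a)
  have h2 : HasDerivAt (fun t => κ ((q t - 1) / a)) (κ' ((q 0 - 1) / a) * (q' / a)) 0 :=
    (hκ _).comp (0 : ℝ) ((hq.sub_const 1).div_const a)
  have h3 : HasDerivAt (fun t => κ (r t / a)) (κ' (r 0 / a) * (r' / a)) 0 :=
    (hκ _).comp (0 : ℝ) (hr.div_const a)
  have h4 : HasDerivAt (fun t => κ (e * s t / a)) (κ' (e * s 0 / a) * (e * s' / a)) 0 :=
    (hκ _).comp (0 : ℝ) ((hs.const_mul e).div_const a)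
  refine (((h1.mul h2).mul h3).mul h4).congr_deriv ?_
  simp only [Pi.mul_apply]
  unfold BXF_D
  ring

/-! ## Entries -/

theorem BXF_ent (i j : Fin 2) : Continuous fun h : SL(2, ℝ) => h.1 i j :=
  continuous_subtype_val.matrix_elem i j

theorem BXF_nM (h : SL(2, ℝ)) (t : ℝ) : (h * nM t).1 0 0 = h.1 0 0 ∧ (h * nM t).1 0 1 = h.1 0 0 * t + h.1 0 1 ∧
    (h * nM t).1 1 0 = h.1 1 0 ∧ (h * nM t).1 1 1 = h.1 1 0 * t + h.1 1 1 := by
  simp [nM, Matrix.mul_apply, Fin.sum_univ_two]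

theorem BXF_lM (h : SL(2, ℝ)) (t : ℝ) : (h * lM t).1 0 0 = h.1 0 0 + h.1 0 1 * t ∧ (h * lM t).1 0 1 = h.1 0 1 ∧
    (h * lM t).1 1 0 = h.1 1 0 + h.1 1 1 * t ∧ (h * lM t).1 1 1 = h.1 1 1 := by
  simp [lM, Matrix.mul_apply, Fin.sum_univ_two]

theorem BXF_aM (h : SL(2, ℝ)) (t : ℝ) : (h * aM t).1 0 0 = h.1 0 0 * Real.exp (t / 2) ∧ (h * aM t).1 0 1 = h.1 0 1 * Real.exp (-(t / 2)) ∧
    (h * aM t).1 1 0 = h.1 1 0 * Real.exp (t / 2) ∧ (h * aM t).1 1 1 = h.1 1 1 * Real.exp (-(t / 2)) := by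
  simp [aM, Matrix.mul_apply, Fin.sum_univ_two]

theorem BXF_inv (k : SL(2, ℝ)) : (k⁻¹).1 0 0 = k.1 1 1 ∧ (k⁻¹).1 0 1 = -k.1 0 1 ∧ (k⁻¹).1 1 0 = -k.1 1 0 ∧ (k⁻¹).1 1 1 = k.1 0 0 := by
  have h : (k⁻¹).1 = k.1.adjugate := Matrix.SpecialLinearGroup.coe_inv k
  rw [h, Matrix.adjugate_fin_two]
  simp

theorem BXF_mulinv (h k : SL(2, ℝ)) : (h * k⁻¹).1 0 0 = h.1 0 0 * k.1 1 1 - h.1 0 1 * k.1 1 0 ∧
    (h * k⁻¹).1 0 1 = h.1 0 1 * k.1 0 0 - h.1 0 0 * k.1 0 1 ∧ (h * k⁻¹).1 1 0 = h.1 1 0 * k.1 1 1 - h.1 1 1 * k.1 1 0 ∧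
    (h * k⁻¹).1 1 1 = h.1 1 1 * k.1 0 0 - h.1 1 0 * k.1 0 1 := by
  obtain ⟨i1, i2, i3, i4⟩ := BXF_inv k
  have e : ∀ i j, (h * k⁻¹).1 i j = h.1 i 0 * (k⁻¹).1 0 j + h.1 i 1 * (k⁻¹).1 1 j := by
    intro i j
    have : (h * k⁻¹).1 = h.1 * (k⁻¹).1 := rfl
    rw [this, Matrix.mul_apply, Fin.sum_univ_two]
  refine ⟨?_, ?_, ?_, ?_⟩
  · rw [e, i1, i3]; ring
  · rw [e, i2, i4]; ring
  · rw [e, i1, i3]; ring
  · rw [e, i2, i4]; ring

/-- estimates: the product of an element of a box and the inverse of an element near `1` -/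
theorem BXF_est {x p q u v : ℝ} {A δ : ℝ} (hA : A ≤ 3 / 8) (hx : |x| ≤ A) (hp : |p| ≤ A) (hq : |q| ≤ δ) (hu : |u| ≤ δ) (hv : |v| ≤ δ) :
    |(1 + x) * (1 + u) - p * v - 1| ≤ A + 2 * δ ∧ |p * (1 + u) - (1 + x) * v| ≤ A + 2 * δ := by
  have hδ : 0 ≤ δ := (abs_nonneg u).trans hu
  have hA0 : 0 ≤ A := (abs_nonneg x).trans hx
  have h1 : |x * u| ≤ 3 / 8 * δ := by
    rw [abs_mul]
    exact mul_le_mul (hx.trans hA) hu (abs_nonneg _) (by norm_num)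
  have h2 : |p * v| ≤ 3 / 8 * δ := by
    rw [abs_mul]
    exact mul_le_mul (hp.trans hA) hv (abs_nonneg _) (by norm_num)
  have h3 : |p * u| ≤ 3 / 8 * δ := by
    rw [abs_mul]
    exact mul_le_mul (hp.trans hA) hu (abs_nonneg _) (by norm_num)
  have h4 : |x * v| ≤ 3 / 8 * δ := by
    rw [abs_mul]
    exact mul_le_mul (hx.trans hA) hv (abs_nonneg _) (by norm_num)
  rw [abs_le] at *
  constructor
  · constructor <;> nlinarith
  · rw [abs_le]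
    constructor <;> nlinarith

theorem BXF_box {A δ : ℝ} (hA : A ≤ 3 / 8) {h k : SL(2, ℝ)} (hh : bq A A A h) (hk : EN.nr δ k) :
    bq (A + 2 * δ) (A + 2 * δ) (A + 2 * δ) (h * k⁻¹) := by
  obtain ⟨h1, h2, h3, h4⟩ := hh
  obtain ⟨e1, e2, e3, e4⟩ := BXF_mulinv h k
  have k00 : |k.1 0 0 - 1| ≤ δ := by simpa using (hk 0 0).le
  have k01 : |k.1 0 1| ≤ δ := by simpa using (hk 0 1).le
  have k10 : |k.1 1 0| ≤ δ := by simpa using (hk 1 0).le
  have k11 : |k.1 1 1 - 1| ≤ δ := by simpa using (hk 1 1).le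
  refine ⟨?_, ?_, ?_, ?_⟩
  · rw [e1]
    have h5 := (BXF_est hA h1 h3 k10 k11 k10).1
    have h6 : (1 + (h.1 0 0 - 1)) * (1 + (k.1 1 1 - 1)) - h.1 0 1 * k.1 1 0 - 1 = h.1 0 0 * k.1 1 1 - h.1 0 1 * k.1 1 0 - 1 := by ring
    rw [h6] at h5
    exact h5
  · rw [e4]
    have h5 := (BXF_est hA h2 h4 k01 k00 k01).1
    have h6 : (1 + (h.1 1 1 - 1)) * (1 + (k.1 0 0 - 1)) - h.1 1 0 * k.1 0 1 - 1 = h.1 1 1 * k.1 0 0 - h.1 1 0 * k.1 0 1 - 1 := by ring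
    rw [h6] at h5
    exact h5
  · rw [e2]
    have h5 := (BXF_est hA h1 h3 k01 k00 k01).2
    have h6 : h.1 0 1 * (1 + (k.1 0 0 - 1)) - (1 + (h.1 0 0 - 1)) * k.1 0 1 = h.1 0 1 * k.1 0 0 - h.1 0 0 * k.1 0 1 := by ring
    rw [h6] at h5
    exact h5
  · rw [e3]
    have h5 := (BXF_est hA h2 h4 k10 k11 k10).2
    have h6 : h.1 1 0 * (1 + (k.1 1 1 - 1)) - (1 + (h.1 1 1 - 1)) * k.1 1 0 = h.1 1 0 * k.1 1 1 - h.1 1 1 * k.1 1 0 := by ring
    rw [h6] at h5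
    exact h5

theorem BXF_nrI {h : SL(2, ℝ)} {ε : ℝ} (h1 : |h.1 0 0 - 1| < ε) (h2 : |h.1 1 1 - 1| < ε) (h3 : |h.1 0 1| < ε) (h4 : |h.1 1 0| < ε) :
    EN.nr ε h := by
  intro i j
  fin_cases i <;> fin_cases j
  · show |h.1 0 0 - (1 : Matrix (Fin 2) (Fin 2) ℝ) 0 0| < ε
    rw [Matrix.one_apply_eq]
    exact h1
  · show |h.1 0 1 - (1 : Matrix (Fin 2) (Fin 2) ℝ) 0 1| < ε
    rw [Matrix.one_apply_ne (by decide), sub_zero]
    exact h3
  · show |h.1 1 0 - (1 : Matrix (Fin 2) (Fin 2) ℝ) 1 0| < ε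
    rw [Matrix.one_apply_ne (by decide), sub_zero]
    exact h4
  · show |h.1 1 1 - (1 : Matrix (Fin 2) (Fin 2) ℝ) 1 1| < ε
    rw [Matrix.one_apply_eq]
    exact h2

theorem BXF_nr {A : ℝ} (hA : A ≤ 3 / 8) {h h' : SL(2, ℝ)} (hh : bq A A A h) (hh' : bq A A A h') {ε : ℝ} (hε : 4 * A < ε) :
    EN.nr ε (h' * h⁻¹) := by
  obtain ⟨g1, g2, g3, g4⟩ := hh
  have hA0 : 0 ≤ A := (abs_nonneg _).trans g1
  obtain ⟨δ, hδ1, hδ2⟩ : ∃ δ, A < δ ∧ A + 2 * δ < ε := ⟨A + (ε - 3 * A) / 4, by linarith, by linarith⟩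
  have hk : EN.nr δ h := BXF_nrI (by linarith) (by linarith) (by linarith) (by linarith)
  obtain ⟨c1, c2, c3, c4⟩ := BXF_box hA hh' hk
  exact BXF_nrI (by linarith) (by linarith) (by linarith) (by linarith)

/-! ## Flows -/

theorem BXF_flow {Γ : Subgroup SL(2, ℝ)} {y : SL(2, ℝ)} {Ψ χ χm : SL(2, ℝ) → ℝ} {m : ℝ → SL(2, ℝ)} (hm : Continuous m) (hm0 : m 0 = 1)
    (hχ : ∀ h, HasDerivAt (fun t => χ (h * m t)) (χm h) 0) (hcm : Continuous χm)
    (hloc : ∀ g0 : SL(2, ℝ), ∃ γ0 : Γ, ∀ᶠ g in 𝓝 g0, Ψ g = χ (y⁻¹ * (γ0 : SL(2, ℝ)) * g))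
    (hinv : ∀ (γ : Γ) (g : SL(2, ℝ)), Ψ ((γ : SL(2, ℝ)) * g) = Ψ g) :
    InvG Γ (fun g => deriv (fun t => Ψ (g * m t)) 0) ∧ (∀ g, HasDerivAt (fun t => Ψ (g * m t)) (deriv (fun t => Ψ (g * m t)) 0) 0) ∧
      ∀ g, ∃ γ0 : Γ, deriv (fun t => Ψ (g * m t)) 0 = χm (y⁻¹ * (γ0 : SL(2, ℝ)) * g) := by
  have key : ∀ g0 : SL(2, ℝ), ∃ γ0 : Γ, ∀ᶠ g in 𝓝 g0, HasDerivAt (fun t => Ψ (g * m t)) (χm (y⁻¹ * (γ0 : SL(2, ℝ)) * g)) 0 := by
    intro g0
    obtain ⟨γ0, h0⟩ := hloc g0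
    refine ⟨γ0, ?_⟩
    filter_upwards [h0.eventually_nhds] with g hg
    have hc : Continuous fun t : ℝ => g * m t := continuous_const.mul hm
    have ht : Tendsto (fun t : ℝ => g * m t) (𝓝 0) (𝓝 g) := by
      have := hc.tendsto 0
      rwa [hm0, mul_one] at this
    have he : (fun t => Ψ (g * m t)) =ᶠ[𝓝 0] fun t => χ (y⁻¹ * (γ0 : SL(2, ℝ)) * g * m t) := by
      filter_upwards [ht.eventually hg] with t h1
      rw [h1]
      congr 1
      group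
    exact (hχ _).congr_of_eventuallyEq he
  refine ⟨⟨?_, ?_⟩, ?_, ?_⟩
  · rw [continuous_iff_continuousAt]
    intro g0
    obtain ⟨γ0, h0⟩ := key g0
    have he : (fun g => deriv (fun t => Ψ (g * m t)) 0) =ᶠ[𝓝 g0] fun g => χm (y⁻¹ * (γ0 : SL(2, ℝ)) * g) := by
      filter_upwards [h0] with g hg
      exact hg.deriv
    have h1 : Continuous fun g => χm (y⁻¹ * (γ0 : SL(2, ℝ)) * g) := hcm.comp (continuous_const.mul continuous_id)
    exact h1.continuousAt.congr he.symm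
  · intro γ g
    have : (fun t => Ψ ((γ : SL(2, ℝ)) * g * m t)) = fun t => Ψ (g * m t) := by
      funext t
      rw [mul_assoc, hinv]
    show deriv (fun t => Ψ ((γ : SL(2, ℝ)) * g * m t)) 0 = deriv (fun t => Ψ (g * m t)) 0
    rw [this]
  · intro g
    obtain ⟨γ0, h0⟩ := key g
    exact h0.self_of_nhds.differentiableAt.hasDerivAt
  · intro g
    obtain ⟨γ0, h0⟩ := key g
    exact ⟨γ0, h0.self_of_nhds.deriv⟩

theorem BXF_term {A B C W x a M L : ℝ} (hA : 0 ≤ A ∧ A ≤ 1) (hB : 0 ≤ B ∧ B ≤ 1) (hC : 0 ≤ C ∧ C ≤ 1) (hW : |W| ≤ M) (ha : 0 < a)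
    (hL : 0 ≤ L) (hx : A ≠ 0 → |x| ≤ L) : |A * B * C * (W * (x / a))| ≤ M * (L / a) := by
  have hM : 0 ≤ M := (abs_nonneg W).trans hW
  by_cases h : A = 0
  · rw [h]
    simp only [zero_mul, abs_zero]
    positivity
  · have h1 : |A * B * C| ≤ 1 := by
      rw [abs_mul, abs_mul, abs_of_nonneg hA.1, abs_of_nonneg hB.1, abs_of_nonneg hC.1]
      have h2 : A * B ≤ 1 := mul_le_one₀ hA.2 hB.1 hB.2
      exact mul_le_one₀ h2 hC.1 hC.2
    have h3 : |W * (x / a)| ≤ M * (L / a) := by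
      rw [abs_mul, abs_div, abs_of_pos ha]
      exact mul_le_mul hW (div_le_div_of_nonneg_right (hx h) ha.le) (by positivity) hM
    rw [abs_mul]
    calc |A * B * C| * |W * (x / a)| ≤ 1 * (M * (L / a)) := mul_le_mul h1 h3 (abs_nonneg _) zero_le_one
      _ = M * (L / a) := one_mul _

theorem BXF_nhds {δ : ℝ} (hδ : 0 < δ) (g0 : SL(2, ℝ)) : ∀ᶠ g in 𝓝 g0, EN.nr δ (g0⁻¹ * g) := by
  have hc : ∀ i j : Fin 2, Continuous fun g : SL(2, ℝ) => |(g0⁻¹ * g).1 i j - (1 : Matrix (Fin 2) (Fin 2) ℝ) i j| := by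
    intro i j
    exact (((BXF_ent i j).comp (continuous_const.mul continuous_id)).sub continuous_const).abs
  have h1 : ∀ i j : Fin 2, ∀ᶠ g in 𝓝 g0, |(g0⁻¹ * g).1 i j - (1 : Matrix (Fin 2) (Fin 2) ℝ) i j| < δ := by
    intro i j
    have h2 := (hc i j).tendsto g0
    have h3 : |(g0⁻¹ * g0).1 i j - (1 : Matrix (Fin 2) (Fin 2) ℝ) i j| = 0 := by
      rw [inv_mul_cancel]
      show |(1 : Matrix (Fin 2) (Fin 2) ℝ) i j - (1 : Matrix (Fin 2) (Fin 2) ℝ) i j| = 0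
      rw [sub_self, abs_zero]
    rw [h3] at h2
    exact h2.eventually (gt_mem_nhds hδ)
  unfold EN.nr
  rw [eventually_all]
  intro i
  rw [eventually_all]
  exact h1 i

/-! ## The row -/

theorem BXF_proof : BXF_stmt := by
  intro Γ hΓ
  obtain ⟨ε, hε, hX⟩ := EN.XDS_proof Γ hΓ
  obtain ⟨κ, κ', M, hM, hκc, hκ'c, hκd, hκ0, hκ1, hκone, hκz, hκM⟩ := BXF_kappa
  refine ⟨min (1 / 8) (ε / 13), by positivity, min_le_left _ _, ?_⟩
  intro a ha hamin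
  have ha8 : a ≤ 1 / 8 := hamin.trans (min_le_left _ _)
  have haε : a ≤ ε / 13 := hamin.trans (min_le_right _ _)
  refine ⟨4 * M / a, by positivity, ?_⟩
  intro n y hn
  have he : 1 ≤ Real.exp n := Real.one_le_exp hn
  have he0 : 0 < Real.exp n := Real.exp_pos n
  have heneg : Real.exp (-n) ≤ 1 := by
    rw [Real.exp_le_one_iff]
    linarith
  have heinv : Real.exp (-n) = (Real.exp n)⁻¹ := Real.exp_neg n
  set χ : SL(2, ℝ) → ℝ := fun h => BXF_F κ a (Real.exp n) (h.1 0 0) (h.1 1 1) (h.1 0 1) (h.1 1 0) with hχdef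
  have hκb : ∀ x, 0 ≤ κ x ∧ κ x ≤ 1 := fun x => ⟨hκ0 x, hκ1 x⟩
  have hnz : ∀ x, κ x ≠ 0 → |x| ≤ 2 := by
    intro x hx
    by_contra hc
    exact hx (hκz x (not_le.1 hc).le)
  have hdiv : ∀ x b : ℝ, |x / a| ≤ b → |x| ≤ b * a := by
    intro x b hx
    rw [abs_div, abs_of_pos ha, div_le_iff₀ ha] at hx
    exact hx
  have hediv : ∀ x b : ℝ, |Real.exp n * x / a| ≤ b → |x| ≤ b * a * Real.exp (-n) := by
    intro x b hx
    have h1 := hdiv _ _ hx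
    rw [abs_mul, abs_of_pos he0] at h1
    rw [heinv, ← div_eq_mul_inv, le_div_iff₀ he0]
    linarith
  have χ0 : ∀ h, 0 ≤ χ h ∧ χ h ≤ 1 := by
    intro h
    have h1 := hκb ((h.1 0 0 - 1) / a)
    have h2 := hκb ((h.1 1 1 - 1) / a)
    have h3 := hκb (h.1 0 1 / a)
    have h4 := hκb (Real.exp n * h.1 1 0 / a)
    constructor
    · exact mul_nonneg (mul_nonneg (mul_nonneg h1.1 h2.1) h3.1) h4.1
    · exact mul_le_one₀ (mul_le_one₀ (mul_le_one₀ h1.2 h2.1 h2.2) h3.1 h3.2) h4.1 h4.2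
  have χnz : ∀ h, χ h ≠ 0 → bq (2 * a) (2 * a) (2 * a * Real.exp (-n)) h := by
    intro h hh
    have h4 : κ (Real.exp n * h.1 1 0 / a) ≠ 0 := fun h0 => hh (by simp only [hχdef, BXF_F, h0, mul_zero])
    have h3 : κ (h.1 0 1 / a) ≠ 0 := fun h0 => hh (by simp only [hχdef, BXF_F, h0, mul_zero, zero_mul])
    have h2 : κ ((h.1 1 1 - 1) / a) ≠ 0 := fun h0 => hh (by simp only [hχdef, BXF_F, h0, mul_zero, zero_mul])
    have h1 : κ ((h.1 0 0 - 1) / a) ≠ 0 := fun h0 => hh (by simp only [hχdef, BXF_F, h0, mul_zero, zero_mul])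
    exact ⟨hdiv _ _ (hnz _ h1), hdiv _ _ (hnz _ h2), hdiv _ _ (hnz _ h3), hediv _ _ (hnz _ h4)⟩
  have χone : ∀ h, bq a a (a * Real.exp (-n)) h → χ h = 1 := by
    rintro h ⟨h1, h2, h3, h4⟩
    have e1 : κ ((h.1 0 0 - 1) / a) = 1 := hκone _ (by rw [abs_div, abs_of_pos ha, div_le_one ha]; exact h1)
    have e2 : κ ((h.1 1 1 - 1) / a) = 1 := hκone _ (by rw [abs_div, abs_of_pos ha, div_le_one ha]; exact h2)
    have e3 : κ (h.1 0 1 / a) = 1 := hκone _ (by rw [abs_div, abs_of_pos ha, div_le_one ha]; exact h3)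
    have e4 : κ (Real.exp n * h.1 1 0 / a) = 1 := hκone _ (by
      rw [abs_div, abs_of_pos ha, div_le_one ha, abs_mul, abs_of_pos he0]
      rw [heinv, ← div_eq_mul_inv, le_div_iff₀ he0] at h4
      linarith)
    simp only [hχdef, BXF_F, e1, e2, e3, e4, mul_one]
  have hbig : ∀ h, χ h ≠ 0 → bq (2 * a) (2 * a) (2 * a) h := by
    intro h hh
    obtain ⟨h1, h2, h3, h4⟩ := χnz h hh
    exact ⟨h1, h2, h3, h4.trans (mul_le_of_le_one_right (by positivity) heneg)⟩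
  -- local finiteness
  have LOC : ∀ g0 : SL(2, ℝ), ∃ γ0 : Γ, ∀ᶠ g in 𝓝 g0, ∀ γ : Γ, γ ≠ γ0 → χ (y⁻¹ * (γ : SL(2, ℝ)) * g) = 0 := by
    intro g0
    have step : ∀ (γ : Γ) (g : SL(2, ℝ)), EN.nr (a / 2) (g0⁻¹ * g) → χ (y⁻¹ * (γ : SL(2, ℝ)) * g) ≠ 0 →
        bq (3 * a) (3 * a) (3 * a) (y⁻¹ * (γ : SL(2, ℝ)) * g0) := by
      intro γ g hg hne
      have h1 := BXF_box (A := 2 * a) (by linarith) (hbig _ hne) hg
      have h2 : y⁻¹ * (γ : SL(2, ℝ)) * g * (g0⁻¹ * g)⁻¹ = y⁻¹ * (γ : SL(2, ℝ)) * g0 := by group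
      have h3 : 2 * a + 2 * (a / 2) = 3 * a := by ring
      rw [h2, h3] at h1
      exact h1
    by_cases hex : ∃ γ0 : Γ, bq (3 * a) (3 * a) (3 * a) (y⁻¹ * (γ0 : SL(2, ℝ)) * g0)
    · obtain ⟨γ0, h0⟩ := hex
      refine ⟨γ0, ?_⟩
      filter_upwards [BXF_nhds (half_pos ha) g0] with g hg γ hne
      by_contra hc
      have h1 := step γ g hg hc
      have h2 := BXF_nr (A := 3 * a) (by linarith) h0 h1 (ε := ε) (by linarith)
      have h3 : y⁻¹ * (γ : SL(2, ℝ)) * g0 * (y⁻¹ * (γ0 : SL(2, ℝ)) * g0)⁻¹ = y⁻¹ * ((γ * γ0⁻¹ : Γ) : SL(2, ℝ)) * y := by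
        rw [Subgroup.coe_mul, Subgroup.coe_inv]
        group
      rw [h3] at h2
      have h4 := hX y (γ * γ0⁻¹) h2
      exact hne (mul_inv_eq_one.1 h4)
    · refine ⟨1, ?_⟩
      filter_upwards [BXF_nhds (half_pos ha) g0] with g hg γ hne
      by_contra hc
      exact hex ⟨γ, step γ g hg hc⟩
  set Ψ : SL(2, ℝ) → ℝ := fun g => ∑ᶠ γ : Γ, χ (y⁻¹ * (γ : SL(2, ℝ)) * g) with hΨdef
  have hloc : ∀ g0 : SL(2, ℝ), ∃ γ0 : Γ, ∀ᶠ g in 𝓝 g0, Ψ g = χ (y⁻¹ * (γ0 : SL(2, ℝ)) * g) := by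
    intro g0
    obtain ⟨γ0, h0⟩ := LOC g0
    refine ⟨γ0, ?_⟩
    filter_upwards [h0] with g hg
    exact finsum_eq_single _ γ0 hg
  have hinv : ∀ (γ : Γ) (g : SL(2, ℝ)), Ψ ((γ : SL(2, ℝ)) * g) = Ψ g := by
    intro γ g
    have h1 := finsum_comp_equiv (Equiv.mulRight γ) (f := fun γ' : Γ => χ (y⁻¹ * (γ' : SL(2, ℝ)) * g))
    rw [hΨdef]
    simp only
    rw [← h1]
    congr 1
    funext γ'
    rw [Equiv.coe_mulRight, Subgroup.coe_mul]
    congr 1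
    group
  have χcont : Continuous χ := by
    have c1 : Continuous fun h : SL(2, ℝ) => κ ((h.1 0 0 - 1) / a) := hκc.comp (((BXF_ent 0 0).sub continuous_const).div_const a)
    have c2 : Continuous fun h : SL(2, ℝ) => κ ((h.1 1 1 - 1) / a) := hκc.comp (((BXF_ent 1 1).sub continuous_const).div_const a)
    have c3 : Continuous fun h : SL(2, ℝ) => κ (h.1 0 1 / a) := hκc.comp ((BXF_ent 0 1).div_const a)
    have c4 : Continuous fun h : SL(2, ℝ) => κ (Real.exp n * h.1 1 0 / a) := hκc.comp (((BXF_ent 1 0).const_mul _).div_const a)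
    exact ((c1.mul c2).mul c3).mul c4
  have hi0 : InvG Γ Ψ := by
    refine ⟨?_, hinv⟩
    rw [continuous_iff_continuousAt]
    intro g0
    obtain ⟨γ0, h0⟩ := hloc g0
    have h1 : Continuous fun g => χ (y⁻¹ * (γ0 : SL(2, ℝ)) * g) := χcont.comp (continuous_const.mul continuous_id)
    exact h1.continuousAt.congr (Filter.EventuallyEq.symm h0)
  have hDcont : ∀ p' q' r' s' : SL(2, ℝ) → ℝ, Continuous p' → Continuous q' → Continuous r' → Continuous s' →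
      Continuous fun h : SL(2, ℝ) => BXF_D κ κ' a (Real.exp n) (h.1 0 0) (h.1 1 1) (h.1 0 1) (h.1 1 0) (p' h) (q' h) (r' h) (s' h) := by
    intro p' q' r' s' hp hq hr hs
    have c1 : Continuous fun h : SL(2, ℝ) => κ ((h.1 0 0 - 1) / a) := hκc.comp (((BXF_ent 0 0).sub continuous_const).div_const a)
    have c2 : Continuous fun h : SL(2, ℝ) => κ ((h.1 1 1 - 1) / a) := hκc.comp (((BXF_ent 1 1).sub continuous_const).div_const a)
    have c3 : Continuous fun h : SL(2, ℝ) => κ (h.1 0 1 / a) := hκc.comp ((BXF_ent 0 1).div_const a)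
    have c4 : Continuous fun h : SL(2, ℝ) => κ (Real.exp n * h.1 1 0 / a) := hκc.comp (((BXF_ent 1 0).const_mul _).div_const a)
    have d1 : Continuous fun h : SL(2, ℝ) => κ' ((h.1 0 0 - 1) / a) := hκ'c.comp (((BXF_ent 0 0).sub continuous_const).div_const a)
    have d2 : Continuous fun h : SL(2, ℝ) => κ' ((h.1 1 1 - 1) / a) := hκ'c.comp (((BXF_ent 1 1).sub continuous_const).div_const a)
    have d3 : Continuous fun h : SL(2, ℝ) => κ' (h.1 0 1 / a) := hκ'c.comp ((BXF_ent 0 1).div_const a)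
    have d4 : Continuous fun h : SL(2, ℝ) => κ' (Real.exp n * h.1 1 0 / a) := hκ'c.comp (((BXF_ent 1 0).const_mul _).div_const a)
    exact (((((d1.mul (hp.div_const a)).mul c2).mul c3).mul c4).add (((c1.mul (d2.mul (hq.div_const a))).mul c3).mul c4)).add
      (((c1.mul c2).mul (d3.mul (hr.div_const a))).mul c4) |>.add (((c1.mul c2).mul c3).mul (d4.mul ((hs.const_mul _).div_const a)))
  have hid : HasDerivAt (fun t : ℝ => t) 1 0 := hasDerivAt_id 0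
  -- the flow nM
  have dn : ∀ h : SL(2, ℝ), HasDerivAt (fun t => χ (h * nM t)) (BXF_D κ κ' a (Real.exp n) (h.1 0 0) (h.1 1 1) (h.1 0 1) (h.1 1 0) 0 (h.1 1 0) (h.1 0 0) 0) 0 := by
    intro h
    have e : (fun t => χ (h * nM t)) = fun t => BXF_F κ a (Real.exp n) (h.1 0 0) (h.1 1 0 * t + h.1 1 1) (h.1 0 0 * t + h.1 0 1) (h.1 1 0) := by
      funext t
      obtain ⟨e1, e2, e3, e4⟩ := BXF_nM h t
      simp only [hχdef, e1, e2, e3, e4]
    rw [e]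
    have h1 := BXF_deriv hκd a (Real.exp n) (p := fun _ => h.1 0 0) (q := fun t => h.1 1 0 * t + h.1 1 1) (r := fun t => h.1 0 0 * t + h.1 0 1)
      (s := fun _ => h.1 1 0) (hasDerivAt_const _ _) ((hid.const_mul (h.1 1 0)).add_const _) ((hid.const_mul (h.1 0 0)).add_const _) (hasDerivAt_const _ _)
    simpa only [mul_zero, zero_add, mul_one] using h1
  have dl : ∀ h : SL(2, ℝ), HasDerivAt (fun t => χ (h * lM t)) (BXF_D κ κ' a (Real.exp n) (h.1 0 0) (h.1 1 1) (h.1 0 1) (h.1 1 0) (h.1 0 1) 0 0 (h.1 1 1)) 0 := by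
    intro h
    have e : (fun t => χ (h * lM t)) = fun t => BXF_F κ a (Real.exp n) (h.1 0 1 * t + h.1 0 0) (h.1 1 1) (h.1 0 1) (h.1 1 1 * t + h.1 1 0) := by
      funext t
      obtain ⟨e1, e2, e3, e4⟩ := BXF_lM h t
      simp only [hχdef, e1, e2, e3, e4]
      rw [add_comm (h.1 0 0), add_comm (h.1 1 0)]
    rw [e]
    have h1 := BXF_deriv hκd a (Real.exp n) (p := fun t => h.1 0 1 * t + h.1 0 0) (q := fun _ => h.1 1 1) (r := fun _ => h.1 0 1)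
      (s := fun t => h.1 1 1 * t + h.1 1 0) ((hid.const_mul (h.1 0 1)).add_const _) (hasDerivAt_const _ _) (hasDerivAt_const _ _) ((hid.const_mul (h.1 1 1)).add_const _)
    simpa only [mul_zero, zero_add, mul_one] using h1
  have da : ∀ h : SL(2, ℝ), HasDerivAt (fun t => χ (h * aM t)) (BXF_D κ κ' a (Real.exp n) (h.1 0 0) (h.1 1 1) (h.1 0 1) (h.1 1 0)
      (h.1 0 0 * (1 / 2)) (h.1 1 1 * -(1 / 2)) (h.1 0 1 * -(1 / 2)) (h.1 1 0 * (1 / 2))) 0 := by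
    intro h
    have e : (fun t => χ (h * aM t)) = fun t => BXF_F κ a (Real.exp n) (h.1 0 0 * Real.exp (t / 2)) (h.1 1 1 * Real.exp (-(t / 2)))
        (h.1 0 1 * Real.exp (-(t / 2))) (h.1 1 0 * Real.exp (t / 2)) := by
      funext t
      obtain ⟨e1, e2, e3, e4⟩ := BXF_aM h t
      simp only [hχdef, e1, e2, e3, e4]
    rw [e]
    have x1 : HasDerivAt (fun t : ℝ => Real.exp (t / 2)) (1 / 2) 0 := by
      have := (hid.div_const 2).exp
      simpa using this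
    have x2 : HasDerivAt (fun t : ℝ => Real.exp (-(t / 2))) (-(1 / 2)) 0 := by
      have := (hid.div_const 2).neg.exp
      simpa using this
    have h1 := BXF_deriv hκd a (Real.exp n) (p := fun t => h.1 0 0 * Real.exp (t / 2)) (q := fun t => h.1 1 1 * Real.exp (-(t / 2)))
      (r := fun t => h.1 0 1 * Real.exp (-(t / 2))) (s := fun t => h.1 1 0 * Real.exp (t / 2))
      (x1.const_mul (h.1 0 0)) (x2.const_mul (h.1 1 1)) (x2.const_mul (h.1 0 1)) (x1.const_mul (h.1 1 0))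
    simpa only [zero_div, neg_zero, Real.exp_zero, mul_one] using h1
  obtain ⟨-, -, -, caM, cnM, clM, -⟩ := RS.GLC
  have a0 : aM 0 = 1 := GLC_ext fun i j => by fin_cases i <;> fin_cases j <;> simp [aM]
  have n0 : nM 0 = 1 := GLC_ext fun i j => by fin_cases i <;> fin_cases j <;> simp [nM]
  have l0 : lM 0 = 1 := GLC_ext fun i j => by fin_cases i <;> fin_cases j <;> simp [lM]
  obtain ⟨ia, da', -⟩ := BXF_flow (y := y) caM a0 da (hDcont _ _ _ _ ((BXF_ent 0 0).mul_const _) ((BXF_ent 1 1).mul_const _) ((BXF_ent 0 1).mul_const _)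
    ((BXF_ent 1 0).mul_const _)) hloc hinv
  obtain ⟨i1, dn', bn⟩ := BXF_flow (y := y) cnM n0 dn (hDcont (fun _ => 0) (fun h => h.1 1 0) (fun h => h.1 0 0) (fun _ => 0) continuous_const (BXF_ent 1 0)
    (BXF_ent 0 0) continuous_const) hloc hinv
  obtain ⟨il, dl', bl⟩ := BXF_flow (y := y) clM l0 dl (hDcont (fun h => h.1 0 1) (fun _ => 0) (fun _ => 0) (fun h => h.1 1 1) (BXF_ent 0 1) continuous_const
    continuous_const (BXF_ent 1 1)) hloc hinv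
  refine ⟨Ψ, _, _, _, ⟨hi0, ia, i1, il, da', dn', dl'⟩, ?_, ?_, ?_, ?_, ?_⟩
  · intro g
    obtain ⟨γ0, h0⟩ := hloc g
    rw [h0.self_of_nhds]
    exact χ0 _
  · intro g
    obtain ⟨γ0, h0⟩ := bn g
    rw [h0]
    generalize y⁻¹ * (γ0 : SL(2, ℝ)) * g = h
    have t1 := BXF_term (hκb (Real.exp n * h.1 1 0 / a)) (hκb ((h.1 0 0 - 1) / a)) (hκb (h.1 0 1 / a)) (hκM ((h.1 1 1 - 1) / a)) ha
      (L := 2) (x := h.1 1 0) (by norm_num) (fun hk => by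
        have h1 := hediv _ _ (hnz _ hk)
        have h2 : 2 * a * Real.exp (-n) ≤ 2 * a := mul_le_of_le_one_right (by positivity) heneg
        linarith)
    have t2 := BXF_term (hκb ((h.1 0 0 - 1) / a)) (hκb ((h.1 1 1 - 1) / a)) (hκb (Real.exp n * h.1 1 0 / a)) (hκM (h.1 0 1 / a)) ha
      (L := 2) (x := h.1 0 0) (by norm_num) (fun hk => by
        have h1 := hdiv _ _ (hnz _ hk)
        have h2 : |h.1 0 0| ≤ |h.1 0 0 - 1| + 1 := by
          have := abs_add_le (h.1 0 0 - 1) 1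
          rw [sub_add_cancel, abs_one] at this
          exact this
        linarith)
    have e : BXF_D κ κ' a (Real.exp n) (h.1 0 0) (h.1 1 1) (h.1 0 1) (h.1 1 0) 0 (h.1 1 0) (h.1 0 0) 0 =
        κ (Real.exp n * h.1 1 0 / a) * κ ((h.1 0 0 - 1) / a) * κ (h.1 0 1 / a) * (κ' ((h.1 1 1 - 1) / a) * (h.1 1 0 / a)) +
        κ ((h.1 0 0 - 1) / a) * κ ((h.1 1 1 - 1) / a) * κ (Real.exp n * h.1 1 0 / a) * (κ' (h.1 0 1 / a) * (h.1 0 0 / a)) := by
      unfold BXF_D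
      ring
    rw [e]
    have h3 := (abs_add_le _ _).trans (add_le_add t1 t2)
    have h4 : M * (2 / a) + M * (2 / a) = 4 * M / a := by ring
    rw [h4] at h3
    exact h3.trans (le_mul_of_one_le_right (by positivity) he)
  · intro g
    obtain ⟨γ0, h0⟩ := bl g
    rw [h0]
    generalize y⁻¹ * (γ0 : SL(2, ℝ)) * g = h
    have t1 := BXF_term (hκb (h.1 0 1 / a)) (hκb ((h.1 1 1 - 1) / a)) (hκb (Real.exp n * h.1 1 0 / a)) (hκM ((h.1 0 0 - 1) / a)) ha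
      (L := 2) (x := h.1 0 1) (by norm_num) (fun hk => by
        have h1 := hdiv _ _ (hnz _ hk)
        linarith)
    have t2 := BXF_term (hκb ((h.1 1 1 - 1) / a)) (hκb ((h.1 0 0 - 1) / a)) (hκb (h.1 0 1 / a)) (hκM (Real.exp n * h.1 1 0 / a)) ha
      (L := 2 * Real.exp n) (x := Real.exp n * h.1 1 1) (by positivity) (fun hk => by
        have h1 := hdiv _ _ (hnz _ hk)
        have h2 : |h.1 1 1| ≤ |h.1 1 1 - 1| + 1 := by
          have := abs_add_le (h.1 1 1 - 1) 1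
          rw [sub_add_cancel, abs_one] at this
          exact this
        rw [abs_mul, abs_of_pos he0]
        have h3 : |h.1 1 1| ≤ 2 := by linarith
        nlinarith)
    have e : BXF_D κ κ' a (Real.exp n) (h.1 0 0) (h.1 1 1) (h.1 0 1) (h.1 1 0) (h.1 0 1) 0 0 (h.1 1 1) =
        κ (h.1 0 1 / a) * κ ((h.1 1 1 - 1) / a) * κ (Real.exp n * h.1 1 0 / a) * (κ' ((h.1 0 0 - 1) / a) * (h.1 0 1 / a)) +
        κ ((h.1 1 1 - 1) / a) * κ ((h.1 0 0 - 1) / a) * κ (h.1 0 1 / a) * (κ' (Real.exp n * h.1 1 0 / a) * (Real.exp n * h.1 1 1 / a)) := by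
      unfold BXF_D
      ring
    rw [e]
    have h3 := (abs_add_le _ _).trans (add_le_add t1 t2)
    have h5 : M * (2 / a) ≤ M * (2 / a) * Real.exp n := le_mul_of_one_le_right (by positivity) he
    have h6 : M * (2 * Real.exp n / a) = M * (2 / a) * Real.exp n := by ring
    have h4 : M * (2 / a) * Real.exp n + M * (2 / a) * Real.exp n = 4 * M / a * Real.exp n := by ring
    linarith
  · rintro g ⟨γ, hγ⟩
    obtain ⟨γ0, h0⟩ := LOC g
    have h1 := h0.self_of_nhds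
    have h2 : γ = γ0 := by
      by_contra hc
      have h3 := h1 γ hc
      rw [χone _ hγ] at h3
      exact one_ne_zero h3
    subst h2
    have h4 : Ψ g = χ (y⁻¹ * (γ : SL(2, ℝ)) * g) := finsum_eq_single _ γ h1
    rw [h4]
    exact χone _ hγ
  · intro g hg
    obtain ⟨γ0, h0⟩ := hloc g
    rw [h0.self_of_nhds] at hg
    exact ⟨γ0, χnz _ hg⟩

end Pool.Agent.MS
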