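import Pool.Agent.helper62.MS.SpecD
import Pool.Agent.helper74.MS.BXF

/-!
# Row `ms:BXG` (MP_07c750_an): smooth indicator functions of one box, sharp derivatives
-/

open scoped MatrixGroups ContDiff Topology UpperHalfPlane ComplexConjugate
open UpperHalfPlane MeasureTheory Filter Set

set_option autoImplicit false

namespace Pool.Agent.MS

open Pool.Agent.RS

theorem BXG_kz {κ κ' : ℝ → ℝ} (hd : ∀ x, HasDerivAt κ (κ' x) x) (hz : ∀ x, 2 ≤ |x| → κ x = 0) (x : ℝ) (hx : κ' x ≠ 0) : |x| ≤ 2 := by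
  by_contra hc
  have h1 : ∀ᶠ z in 𝓝 x, κ z = 0 := by
    filter_upwards [(continuous_abs.tendsto x).eventually (lt_mem_nhds (not_le.1 hc))] with z hz'
    exact hz z hz'.le
  have h2 : κ =ᶠ[𝓝 x] fun _ => (0 : ℝ) := h1
  have h3 : HasDerivAt κ 0 x := (hasDerivAt_const x (0 : ℝ)).congr_of_eventuallyEq h2
  exact hx ((hd x).unique h3)

theorem BXG_proof : BXG_stmt := by
  intro Γ hΓ
  obtain ⟨ε, hε, hX⟩ := EN.XDS_proof Γ hΓ
  obtain ⟨κ, κ', M, hM, hκc, hκ'c, hκd, hκ0, hκ1, hκone, hκz, hκM⟩ := BXF_kappa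
  refine ⟨min (1 / 8) (ε / 13), by positivity, min_le_left _ _, ?_⟩
  intro a ha hamin
  have ha8 : a ≤ 1 / 8 := hamin.trans (min_le_left _ _)
  have haε : a ≤ ε / 13 := hamin.trans (min_le_right _ _)
  refine ⟨4 * M / a, by positivity, ?_⟩
  intro n y hn
  have he : 1 ≤ Real.exp n := Real.one_le_exp hn
  have he0 : 0 < Real.exp n := Real.exp_pos n
  have heneg : Real.exp (-n) ≤ 1 := by
    rw [Real.exp_le_one_iff]
    linarith
  have heinv : Real.exp (-n) = (Real.exp n)⁻¹ := Real.exp_neg n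
  set χ : SL(2, ℝ) → ℝ := fun h => BXF_F κ a (Real.exp n) (h.1 0 0) (h.1 1 1) (h.1 0 1) (h.1 1 0) with hχdef
  have hκb : ∀ x, 0 ≤ κ x ∧ κ x ≤ 1 := fun x => ⟨hκ0 x, hκ1 x⟩
  have hnz : ∀ x, κ x ≠ 0 → |x| ≤ 2 := by
    intro x hx
    by_contra hc
    exact hx (hκz x (not_le.1 hc).le)
  have hdiv : ∀ x b : ℝ, |x / a| ≤ b → |x| ≤ b * a := by
    intro x b hx
    rw [abs_div, abs_of_pos ha, div_le_iff₀ ha] at hx
    exact hx
  have hediv : ∀ x b : ℝ, |Real.exp n * x / a| ≤ b → |x| ≤ b * a * Real.exp (-n) := by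
    intro x b hx
    have h1 := hdiv _ _ hx
    rw [abs_mul, abs_of_pos he0] at h1
    rw [heinv, ← div_eq_mul_inv, le_div_iff₀ he0]
    linarith
  have χ0 : ∀ h, 0 ≤ χ h ∧ χ h ≤ 1 := by
    intro h
    have h1 := hκb ((h.1 0 0 - 1) / a)
    have h2 := hκb ((h.1 1 1 - 1) / a)
    have h3 := hκb (h.1 0 1 / a)
    have h4 := hκb (Real.exp n * h.1 1 0 / a)
    constructor
    · exact mul_nonneg (mul_nonneg (mul_nonneg h1.1 h2.1) h3.1) h4.1
    · exact mul_le_one₀ (mul_le_one₀ (mul_le_one₀ h1.2 h2.1 h2.2) h3.1 h3.2) h4.1 h4.2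
  have χnz : ∀ h, χ h ≠ 0 → bq (2 * a) (2 * a) (2 * a * Real.exp (-n)) h := by
    intro h hh
    have h4 : κ (Real.exp n * h.1 1 0 / a) ≠ 0 := fun h0 => hh (by simp only [hχdef, BXF_F, h0, mul_zero])
    have h3 : κ (h.1 0 1 / a) ≠ 0 := fun h0 => hh (by simp only [hχdef, BXF_F, h0, mul_zero, zero_mul])
    have h2 : κ ((h.1 1 1 - 1) / a) ≠ 0 := fun h0 => hh (by simp only [hχdef, BXF_F, h0, mul_zero, zero_mul])
    have h1 : κ ((h.1 0 0 - 1) / a) ≠ 0 := fun h0 => hh (by simp only [hχdef, BXF_F, h0, mul_zero, zero_mul])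
    exact ⟨hdiv _ _ (hnz _ h1), hdiv _ _ (hnz _ h2), hdiv _ _ (hnz _ h3), hediv _ _ (hnz _ h4)⟩
  have Dnz : ∀ (h : SL(2, ℝ)) (p' q' r' s' : ℝ), BXF_D κ κ' a (Real.exp n) (h.1 0 0) (h.1 1 1) (h.1 0 1) (h.1 1 0) p' q' r' s' ≠ 0 →
      bq (2 * a) (2 * a) (2 * a * Real.exp (-n)) h := by
    intro h p' q' r' s' hh
    have h1 : |(h.1 0 0 - 1) / a| ≤ 2 := by
      by_contra hc
      have k1 : κ ((h.1 0 0 - 1) / a) = 0 := by_contra fun h0 => hc (hnz _ h0)
      have k2 : κ' ((h.1 0 0 - 1) / a) = 0 := by_contra fun h0 => hc (BXG_kz hκd hκz _ h0)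
      exact hh (by simp only [BXF_D, k1, k2, zero_mul, mul_zero, add_zero])
    have h2 : |(h.1 1 1 - 1) / a| ≤ 2 := by
      by_contra hc
      have k1 : κ ((h.1 1 1 - 1) / a) = 0 := by_contra fun h0 => hc (hnz _ h0)
      have k2 : κ' ((h.1 1 1 - 1) / a) = 0 := by_contra fun h0 => hc (BXG_kz hκd hκz _ h0)
      exact hh (by simp only [BXF_D, k1, k2, zero_mul, mul_zero, add_zero])
    have h3 : |h.1 0 1 / a| ≤ 2 := by
      by_contra hc
      have k1 : κ (h.1 0 1 / a) = 0 := by_contra fun h0 => hc (hnz _ h0)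
      have k2 : κ' (h.1 0 1 / a) = 0 := by_contra fun h0 => hc (BXG_kz hκd hκz _ h0)
      exact hh (by simp only [BXF_D, k1, k2, zero_mul, mul_zero, add_zero])
    have h4 : |Real.exp n * h.1 1 0 / a| ≤ 2 := by
      by_contra hc
      have k1 : κ (Real.exp n * h.1 1 0 / a) = 0 := by_contra fun h0 => hc (hnz _ h0)
      have k2 : κ' (Real.exp n * h.1 1 0 / a) = 0 := by_contra fun h0 => hc (BXG_kz hκd hκz _ h0)
      exact hh (by simp only [BXF_D, k1, k2, zero_mul, mul_zero, add_zero])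
    exact ⟨hdiv _ _ h1, hdiv _ _ h2, hdiv _ _ h3, hediv _ _ h4⟩
  have χone : ∀ h, bq a a (a * Real.exp (-n)) h → χ h = 1 := by
    rintro h ⟨h1, h2, h3, h4⟩
    have e1 : κ ((h.1 0 0 - 1) / a) = 1 := hκone _ (by rw [abs_div, abs_of_pos ha, div_le_one ha]; exact h1)
    have e2 : κ ((h.1 1 1 - 1) / a) = 1 := hκone _ (by rw [abs_div, abs_of_pos ha, div_le_one ha]; exact h2)
    have e3 : κ (h.1 0 1 / a) = 1 := hκone _ (by rw [abs_div, abs_of_pos ha, div_le_one ha]; exact h3)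
    have e4 : κ (Real.exp n * h.1 1 0 / a) = 1 := hκone _ (by
      rw [abs_div, abs_of_pos ha, div_le_one ha, abs_mul, abs_of_pos he0]
      rw [heinv, ← div_eq_mul_inv, le_div_iff₀ he0] at h4
      linarith)
    simp only [hχdef, BXF_F, e1, e2, e3, e4, mul_one]
  have hbig : ∀ h, χ h ≠ 0 → bq (2 * a) (2 * a) (2 * a) h := by
    intro h hh
    obtain ⟨h1, h2, h3, h4⟩ := χnz h hh
    exact ⟨h1, h2, h3, h4.trans (mul_le_of_le_one_right (by positivity) heneg)⟩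
  -- local finiteness
  have LOC : ∀ g0 : SL(2, ℝ), ∃ γ0 : Γ, ∀ᶠ g in 𝓝 g0, ∀ γ : Γ, γ ≠ γ0 → χ (y⁻¹ * (γ : SL(2, ℝ)) * g) = 0 := by
    intro g0
    have step : ∀ (γ : Γ) (g : SL(2, ℝ)), EN.nr (a / 2) (g0⁻¹ * g) → χ (y⁻¹ * (γ : SL(2, ℝ)) * g) ≠ 0 →
        bq (3 * a) (3 * a) (3 * a) (y⁻¹ * (γ : SL(2, ℝ)) * g0) := by
      intro γ g hg hne
      have h1 := BXF_box (A := 2 * a) (by linarith) (hbig _ hne) hg
      have h2 : y⁻¹ * (γ : SL(2, ℝ)) * g * (g0⁻¹ * g)⁻¹ = y⁻¹ * (γ : SL(2, ℝ)) * g0 := by group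
      have h3 : 2 * a + 2 * (a / 2) = 3 * a := by ring
      rw [h2, h3] at h1
      exact h1
    by_cases hex : ∃ γ0 : Γ, bq (3 * a) (3 * a) (3 * a) (y⁻¹ * (γ0 : SL(2, ℝ)) * g0)
    · obtain ⟨γ0, h0⟩ := hex
      refine ⟨γ0, ?_⟩
      filter_upwards [BXF_nhds (half_pos ha) g0] with g hg γ hne
      by_contra hc
      have h1 := step γ g hg hc
      have h2 := BXF_nr (A := 3 * a) (by linarith) h0 h1 (ε := ε) (by linarith)
      have h3 : y⁻¹ * (γ : SL(2, ℝ)) * g0 * (y⁻¹ * (γ0 : SL(2, ℝ)) * g0)⁻¹ = y⁻¹ * ((γ * γ0⁻¹ : Γ) : SL(2, ℝ)) * y := by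
        rw [Subgroup.coe_mul, Subgroup.coe_inv]
        group
      rw [h3] at h2
      have h4 := hX y (γ * γ0⁻¹) h2
      exact hne (mul_inv_eq_one.1 h4)
    · refine ⟨1, ?_⟩
      filter_upwards [BXF_nhds (half_pos ha) g0] with g hg γ hne
      by_contra hc
      exact hex ⟨γ, step γ g hg hc⟩
  set Ψ : SL(2, ℝ) → ℝ := fun g => ∑ᶠ γ : Γ, χ (y⁻¹ * (γ : SL(2, ℝ)) * g) with hΨdef
  have hloc : ∀ g0 : SL(2, ℝ), ∃ γ0 : Γ, ∀ᶠ g in 𝓝 g0, Ψ g = χ (y⁻¹ * (γ0 : SL(2, ℝ)) * g) := by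
    intro g0
    obtain ⟨γ0, h0⟩ := LOC g0
    refine ⟨γ0, ?_⟩
    filter_upwards [h0] with g hg
    exact finsum_eq_single _ γ0 hg
  have hinv : ∀ (γ : Γ) (g : SL(2, ℝ)), Ψ ((γ : SL(2, ℝ)) * g) = Ψ g := by
    intro γ g
    have h1 := finsum_comp_equiv (Equiv.mulRight γ) (f := fun γ' : Γ => χ (y⁻¹ * (γ' : SL(2, ℝ)) * g))
    rw [hΨdef]
    simp only
    rw [← h1]
    congr 1
    funext γ'
    rw [Equiv.coe_mulRight, Subgroup.coe_mul]
    congr 1
    group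
  have χcont : Continuous χ := by
    have c1 : Continuous fun h : SL(2, ℝ) => κ ((h.1 0 0 - 1) / a) := hκc.comp (((BXF_ent 0 0).sub continuous_const).div_const a)
    have c2 : Continuous fun h : SL(2, ℝ) => κ ((h.1 1 1 - 1) / a) := hκc.comp (((BXF_ent 1 1).sub continuous_const).div_const a)
    have c3 : Continuous fun h : SL(2, ℝ) => κ (h.1 0 1 / a) := hκc.comp ((BXF_ent 0 1).div_const a)
    have c4 : Continuous fun h : SL(2, ℝ) => κ (Real.exp n * h.1 1 0 / a) := hκc.comp (((BXF_ent 1 0).const_mul _).div_const a)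
    exact ((c1.mul c2).mul c3).mul c4
  have hi0 : InvG Γ Ψ := by
    refine ⟨?_, hinv⟩
    rw [continuous_iff_continuousAt]
    intro g0
    obtain ⟨γ0, h0⟩ := hloc g0
    have h1 : Continuous fun g => χ (y⁻¹ * (γ0 : SL(2, ℝ)) * g) := χcont.comp (continuous_const.mul continuous_id)
    exact h1.continuousAt.congr (Filter.EventuallyEq.symm h0)
  have hDcont : ∀ p' q' r' s' : SL(2, ℝ) → ℝ, Continuous p' → Continuous q' → Continuous r' → Continuous s' →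
      Continuous fun h : SL(2, ℝ) => BXF_D κ κ' a (Real.exp n) (h.1 0 0) (h.1 1 1) (h.1 0 1) (h.1 1 0) (p' h) (q' h) (r' h) (s' h) := by
    intro p' q' r' s' hp hq hr hs
    have c1 : Continuous fun h : SL(2, ℝ) => κ ((h.1 0 0 - 1) / a) := hκc.comp (((BXF_ent 0 0).sub continuous_const).div_const a)
    have c2 : Continuous fun h : SL(2, ℝ) => κ ((h.1 1 1 - 1) / a) := hκc.comp (((BXF_ent 1 1).sub continuous_const).div_const a)
    have c3 : Continuous fun h : SL(2, ℝ) => κ (h.1 0 1 / a) := hκc.comp ((BXF_ent 0 1).div_const a)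
    have c4 : Continuous fun h : SL(2, ℝ) => κ (Real.exp n * h.1 1 0 / a) := hκc.comp (((BXF_ent 1 0).const_mul _).div_const a)
    have d1 : Continuous fun h : SL(2, ℝ) => κ' ((h.1 0 0 - 1) / a) := hκ'c.comp (((BXF_ent 0 0).sub continuous_const).div_const a)
    have d2 : Continuous fun h : SL(2, ℝ) => κ' ((h.1 1 1 - 1) / a) := hκ'c.comp (((BXF_ent 1 1).sub continuous_const).div_const a)
    have d3 : Continuous fun h : SL(2, ℝ) => κ' (h.1 0 1 / a) := hκ'c.comp ((BXF_ent 0 1).div_const a)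
    have d4 : Continuous fun h : SL(2, ℝ) => κ' (Real.exp n * h.1 1 0 / a) := hκ'c.comp (((BXF_ent 1 0).const_mul _).div_const a)
    exact (((((d1.mul (hp.div_const a)).mul c2).mul c3).mul c4).add (((c1.mul (d2.mul (hq.div_const a))).mul c3).mul c4)).add
      (((c1.mul c2).mul (d3.mul (hr.div_const a))).mul c4) |>.add (((c1.mul c2).mul c3).mul (d4.mul ((hs.const_mul _).div_const a)))
  have hid : HasDerivAt (fun t : ℝ => t) 1 0 := hasDerivAt_id 0
  -- the flow nM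
  have dn : ∀ h : SL(2, ℝ), HasDerivAt (fun t => χ (h * nM t)) (BXF_D κ κ' a (Real.exp n) (h.1 0 0) (h.1 1 1) (h.1 0 1) (h.1 1 0) 0 (h.1 1 0) (h.1 0 0) 0) 0 := by
    intro h
    have e : (fun t => χ (h * nM t)) = fun t => BXF_F κ a (Real.exp n) (h.1 0 0) (h.1 1 0 * t + h.1 1 1) (h.1 0 0 * t + h.1 0 1) (h.1 1 0) := by
      funext t
      obtain ⟨e1, e2, e3, e4⟩ := BXF_nM h t
      simp only [hχdef, e1, e2, e3, e4]
    rw [e]
    have h1 := BXF_deriv hκd a (Real.exp n) (p := fun _ => h.1 0 0) (q := fun t => h.1 1 0 * t + h.1 1 1) (r := fun t => h.1 0 0 * t + h.1 0 1)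
      (s := fun _ => h.1 1 0) (hasDerivAt_const _ _) ((hid.const_mul (h.1 1 0)).add_const _) ((hid.const_mul (h.1 0 0)).add_const _) (hasDerivAt_const _ _)
    simpa only [mul_zero, zero_add, mul_one] using h1
  have dl : ∀ h : SL(2, ℝ), HasDerivAt (fun t => χ (h * lM t)) (BXF_D κ κ' a (Real.exp n) (h.1 0 0) (h.1 1 1) (h.1 0 1) (h.1 1 0) (h.1 0 1) 0 0 (h.1 1 1)) 0 := by
    intro h
    have e : (fun t => χ (h * lM t)) = fun t => BXF_F κ a (Real.exp n) (h.1 0 1 * t + h.1 0 0) (h.1 1 1) (h.1 0 1) (h.1 1 1 * t + h.1 1 0) := by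
      funext t
      obtain ⟨e1, e2, e3, e4⟩ := BXF_lM h t
      simp only [hχdef, e1, e2, e3, e4]
      rw [add_comm (h.1 0 0), add_comm (h.1 1 0)]
    rw [e]
    have h1 := BXF_deriv hκd a (Real.exp n) (p := fun t => h.1 0 1 * t + h.1 0 0) (q := fun _ => h.1 1 1) (r := fun _ => h.1 0 1)
      (s := fun t => h.1 1 1 * t + h.1 1 0) ((hid.const_mul (h.1 0 1)).add_const _) (hasDerivAt_const _ _) (hasDerivAt_const _ _) ((hid.const_mul (h.1 1 1)).add_const _)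
    simpa only [mul_zero, zero_add, mul_one] using h1
  have da : ∀ h : SL(2, ℝ), HasDerivAt (fun t => χ (h * aM t)) (BXF_D κ κ' a (Real.exp n) (h.1 0 0) (h.1 1 1) (h.1 0 1) (h.1 1 0)
      (h.1 0 0 * (1 / 2)) (h.1 1 1 * -(1 / 2)) (h.1 0 1 * -(1 / 2)) (h.1 1 0 * (1 / 2))) 0 := by
    intro h
    have e : (fun t => χ (h * aM t)) = fun t => BXF_F κ a (Real.exp n) (h.1 0 0 * Real.exp (t / 2)) (h.1 1 1 * Real.exp (-(t / 2)))
        (h.1 0 1 * Real.exp (-(t / 2))) (h.1 1 0 * Real.exp (t / 2)) := by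
      funext t
      obtain ⟨e1, e2, e3, e4⟩ := BXF_aM h t
      simp only [hχdef, e1, e2, e3, e4]
    rw [e]
    have x1 : HasDerivAt (fun t : ℝ => Real.exp (t / 2)) (1 / 2) 0 := by
      have := (hid.div_const 2).exp
      simpa using this
    have x2 : HasDerivAt (fun t : ℝ => Real.exp (-(t / 2))) (-(1 / 2)) 0 := by
      have := (hid.div_const 2).neg.exp
      simpa using this
    have h1 := BXF_deriv hκd a (Real.exp n) (p := fun t => h.1 0 0 * Real.exp (t / 2)) (q := fun t => h.1 1 1 * Real.exp (-(t / 2)))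
      (r := fun t => h.1 0 1 * Real.exp (-(t / 2))) (s := fun t => h.1 1 0 * Real.exp (t / 2))
      (x1.const_mul (h.1 0 0)) (x2.const_mul (h.1 1 1)) (x2.const_mul (h.1 0 1)) (x1.const_mul (h.1 1 0))
    simpa only [zero_div, neg_zero, Real.exp_zero, mul_one] using h1
  obtain ⟨-, -, -, caM, cnM, clM, -⟩ := RS.GLC
  have a0 : aM 0 = 1 := GLC_ext fun i j => by fin_cases i <;> fin_cases j <;> simp [aM]
  have n0 : nM 0 = 1 := GLC_ext fun i j => by fin_cases i <;> fin_cases j <;> simp [nM]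
  have l0 : lM 0 = 1 := GLC_ext fun i j => by fin_cases i <;> fin_cases j <;> simp [lM]
  obtain ⟨ia, da', -⟩ := BXF_flow (y := y) caM a0 da (hDcont _ _ _ _ ((BXF_ent 0 0).mul_const _) ((BXF_ent 1 1).mul_const _) ((BXF_ent 0 1).mul_const _)
    ((BXF_ent 1 0).mul_const _)) hloc hinv
  obtain ⟨i1, dn', bn⟩ := BXF_flow (y := y) cnM n0 dn (hDcont (fun _ => 0) (fun h => h.1 1 0) (fun h => h.1 0 0) (fun _ => 0) continuous_const (BXF_ent 1 0)
    (BXF_ent 0 0) continuous_const) hloc hinv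
  obtain ⟨il, dl', bl⟩ := BXF_flow (y := y) clM l0 dl (hDcont (fun h => h.1 0 1) (fun _ => 0) (fun _ => 0) (fun h => h.1 1 1) (BXF_ent 0 1) continuous_const
    continuous_const (BXF_ent 1 1)) hloc hinv
  refine ⟨Ψ, _, _, _, ⟨hi0, ia, i1, il, da', dn', dl'⟩, ?_, ?_, ?_, ?_, ?_⟩
  · intro g
    obtain ⟨γ0, h0⟩ := hloc g
    rw [h0.self_of_nhds]
    exact χ0 _
  · intro g
    obtain ⟨γ0, h0⟩ := bn g
    rw [h0]
    generalize y⁻¹ * (γ0 : SL(2, ℝ)) * g = h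
    have t1 := BXF_term (hκb (Real.exp n * h.1 1 0 / a)) (hκb ((h.1 0 0 - 1) / a)) (hκb (h.1 0 1 / a)) (hκM ((h.1 1 1 - 1) / a)) ha
      (L := 2) (x := h.1 1 0) (by norm_num) (fun hk => by
        have h1 := hediv _ _ (hnz _ hk)
        have h2 : 2 * a * Real.exp (-n) ≤ 2 * a := mul_le_of_le_one_right (by positivity) heneg
        linarith)
    have t2 := BXF_term (hκb ((h.1 0 0 - 1) / a)) (hκb ((h.1 1 1 - 1) / a)) (hκb (Real.exp n * h.1 1 0 / a)) (hκM (h.1 0 1 / a)) ha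
      (L := 2) (x := h.1 0 0) (by norm_num) (fun hk => by
        have h1 := hdiv _ _ (hnz _ hk)
        have h2 : |h.1 0 0| ≤ |h.1 0 0 - 1| + 1 := by
          have := abs_add_le (h.1 0 0 - 1) 1
          rw [sub_add_cancel, abs_one] at this
          exact this
        linarith)
    have e : BXF_D κ κ' a (Real.exp n) (h.1 0 0) (h.1 1 1) (h.1 0 1) (h.1 1 0) 0 (h.1 1 0) (h.1 0 0) 0 =
        κ (Real.exp n * h.1 1 0 / a) * κ ((h.1 0 0 - 1) / a) * κ (h.1 0 1 / a) * (κ' ((h.1 1 1 - 1) / a) * (h.1 1 0 / a)) +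
        κ ((h.1 0 0 - 1) / a) * κ ((h.1 1 1 - 1) / a) * κ (Real.exp n * h.1 1 0 / a) * (κ' (h.1 0 1 / a) * (h.1 0 0 / a)) := by
      unfold BXF_D
      ring
    rw [e]
    have h3 := (abs_add_le _ _).trans (add_le_add t1 t2)
    have h4 : M * (2 / a) + M * (2 / a) = 4 * M / a := by ring
    rw [h4] at h3
    exact h3
  · intro g
    obtain ⟨γ0, h0⟩ := bl g
    rw [h0]
    generalize y⁻¹ * (γ0 : SL(2, ℝ)) * g = h
    have t1 := BXF_term (hκb (h.1 0 1 / a)) (hκb ((h.1 1 1 - 1) / a)) (hκb (Real.exp n * h.1 1 0 / a)) (hκM ((h.1 0 0 - 1) / a)) ha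
      (L := 2) (x := h.1 0 1) (by norm_num) (fun hk => by
        have h1 := hdiv _ _ (hnz _ hk)
        linarith)
    have t2 := BXF_term (hκb ((h.1 1 1 - 1) / a)) (hκb ((h.1 0 0 - 1) / a)) (hκb (h.1 0 1 / a)) (hκM (Real.exp n * h.1 1 0 / a)) ha
      (L := 2 * Real.exp n) (x := Real.exp n * h.1 1 1) (by positivity) (fun hk => by
        have h1 := hdiv _ _ (hnz _ hk)
        have h2 : |h.1 1 1| ≤ |h.1 1 1 - 1| + 1 := by
          have := abs_add_le (h.1 1 1 - 1) 1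
          rw [sub_add_cancel, abs_one] at this
          exact this
        rw [abs_mul, abs_of_pos he0]
        have h3 : |h.1 1 1| ≤ 2 := by linarith
        nlinarith)
    have e : BXF_D κ κ' a (Real.exp n) (h.1 0 0) (h.1 1 1) (h.1 0 1) (h.1 1 0) (h.1 0 1) 0 0 (h.1 1 1) =
        κ (h.1 0 1 / a) * κ ((h.1 1 1 - 1) / a) * κ (Real.exp n * h.1 1 0 / a) * (κ' ((h.1 0 0 - 1) / a) * (h.1 0 1 / a)) +
        κ ((h.1 1 1 - 1) / a) * κ ((h.1 0 0 - 1) / a) * κ (h.1 0 1 / a) * (κ' (Real.exp n * h.1 1 0 / a) * (Real.exp n * h.1 1 1 / a)) := by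
      unfold BXF_D
      ring
    rw [e]
    have h3 := (abs_add_le _ _).trans (add_le_add t1 t2)
    have h5 : M * (2 / a) ≤ M * (2 / a) * Real.exp n := le_mul_of_one_le_right (by positivity) he
    have h6 : M * (2 * Real.exp n / a) = M * (2 / a) * Real.exp n := by ring
    have h4 : M * (2 / a) * Real.exp n + M * (2 / a) * Real.exp n = 4 * M / a * Real.exp n := by ring
    linarith
  · rintro g ⟨γ, hγ⟩
    obtain ⟨γ0, h0⟩ := LOC g
    have h1 := h0.self_of_nhds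
    have h2 : γ = γ0 := by
      by_contra hc
      have h3 := h1 γ hc
      rw [χone _ hγ] at h3
      exact one_ne_zero h3
    subst h2
    have h4 : Ψ g = χ (y⁻¹ * (γ : SL(2, ℝ)) * g) := finsum_eq_single _ γ h1
    rw [h4]
    exact χone _ hγ
  · intro g hg
    rcases hg with hg | hg | hg
    · obtain ⟨γ0, h0⟩ := hloc g
      rw [h0.self_of_nhds] at hg
      exact ⟨γ0, χnz _ hg⟩
    · obtain ⟨γ0, h0⟩ := bn g
      rw [h0] at hg
      exact ⟨γ0, Dnz _ _ _ _ _ hg⟩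
    · obtain ⟨γ0, h0⟩ := bl g
      rw [h0] at hg
      exact ⟨γ0, Dnz _ _ _ _ _ hg⟩

end Pool.Agent.MS
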