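import Pool.Agent.helper57.MS.Spec2
import Pool.Agent.helper11.MS.HVN

/-! # Row ms:PVN -/

set_option autoImplicit false

open Finset

namespace Pool.Agent.helper57.MS

open Pool.Agent.RRank Pool.Agent.helper26.IM

theorem PVN_part {d : ℕ} (P : IndexPartition d) (A : Finset (Fin d)) (hA : Even A.card)
    (s₀ : Fin d) (h : OddP A P) :
    ∃ I' : Finset (Fin d), s₀ ∉ I' ∧ Odd (I' ∩ A).card ∧ ∀ L ∈ P.parts, L ⊆ I' ∨ Disjoint L I' := by
  obtain ⟨I, hI, hIA⟩ := h
  by_cases hs : s₀ ∈ I
  · refine ⟨Iᶜ, by simpa using hs, ?_, ?_⟩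
    · have h1 : (I ∩ A).card + (Iᶜ ∩ A).card = A.card := by
        rw [← Finset.card_union_of_disjoint, ← Finset.union_inter_distrib_right,
          Finset.union_compl, Finset.univ_inter]
        exact (disjoint_compl_right (a := I)).mono Finset.inter_subset_left
          Finset.inter_subset_left
      rcases hA with ⟨m, hm⟩
      rcases hIA with ⟨n, hn⟩
      exact ⟨m - n - 1, by omega⟩
    · intro L hL
      by_cases hLI : L = I
      · right
        rw [hLI]
        exact disjoint_compl_right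
      · left
        have h8 := P.disjoint hL hI hLI
        intro z hz
        rw [Finset.mem_compl]
        exact Finset.disjoint_left.1 h8 hz
  · refine ⟨I, hs, hIA, ?_⟩
    intro L hL
    by_cases hLI : L = I
    · left
      rw [hLI]
    · right
      exact P.disjoint hL hI hLI

theorem PVN_nw (K : Type) [Field K] {d l : ℕ} (S A J : Finset (Fin d)) (s₀ : Fin d) (a b : Fin l)
    (hab : a ≠ b) (hodd : Odd (J ∩ A).card) (hs : s₀ ∉ J) (hJ : J ⊆ S)
    (σ : Fin d → Equiv.Perm (Fin l)) :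
    nw K S A s₀ (HVN_inv J a b σ) = - nw K S A s₀ σ := by
  have h0 : ∀ γ, γ ∉ J → HVN_inv J a b σ γ = σ γ := by
    intro γ hγ
    unfold HVN_inv
    rw [if_neg hγ]
  have h1 : (HVN_inv J a b σ s₀ = 1 ∧ ∀ γ, γ ∉ S → HVN_inv J a b σ γ = 1) ↔
      (σ s₀ = 1 ∧ ∀ γ, γ ∉ S → σ γ = 1) := by
    rw [h0 s₀ hs]
    refine and_congr Iff.rfl (forall_congr' fun γ => ?_)
    refine imp_congr_right fun hγ => ?_
    rw [h0 γ fun h => hγ (hJ h)]
  unfold nw
  by_cases h : σ s₀ = 1 ∧ ∀ γ, γ ∉ S → σ γ = 1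
  · rw [if_pos (h1.2 h), if_pos h, HVN_sg K A J a b hab hodd σ]
  · rw [if_neg (fun h' => h (h1.1 h')), if_neg h, neg_zero]

theorem PVN : PVN_stmt := by
  intro K _ d l r Q R T hr hT A hA hodd S hAS s₀ hs₀ x hx
  obtain ⟨t, ht, hTt⟩ := hT
  have hexp : HC l (nw K S A s₀) T x = ∑ c : Fin l → Fin r, ∑ σ : Fin d → Equiv.Perm (Fin l),
      nw K S A s₀ σ * ∏ i, t (c i) (fun α => x (α, σ α i)) := by
    unfold HC
    rw [Finset.sum_apply, Finset.sum_comm]
    refine Finset.sum_congr rfl fun σ _ => ?_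
    rw [Pi.smul_apply, smul_eq_mul, Finset.prod_apply, ← Finset.mul_sum]
    congr 1
    have h1 : ∀ i : Fin l, cop T (fun α => σ α i) x = ∑ j, t j (fun α => x (α, σ α i)) :=
      fun i => hTt _
    rw [Finset.prod_congr rfl fun i _ => h1 i, Finset.prod_univ_sum, Fintype.piFinset_univ]
  rw [hexp]
  refine Finset.sum_eq_zero fun c _ => ?_
  obtain ⟨a, b, hab, hc⟩ := Fintype.exists_ne_map_eq_of_card_lt c (by
    rw [Fintype.card_fin, Fintype.card_fin]
    exact hr)
  obtain ⟨P, hP, u, hu, htu⟩ := rankLEOne_iff.1 (ht (c a))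
  obtain ⟨I', hsI, hIA, hpart⟩ := PVN_part P A hA s₀ (hodd P hP)
  have hJA : Odd ((I' ∩ S) ∩ A).card := by
    have e : (I' ∩ S) ∩ A = I' ∩ A := by
      rw [Finset.inter_assoc, Finset.inter_eq_right.2 hAS]
    rw [e]
    exact hIA
  have hIne : (I' ∩ S).Nonempty := by
    have h1 : 0 < ((I' ∩ S) ∩ A).card := hJA.pos
    exact (Finset.card_pos.1 h1).mono Finset.inter_subset_left
  have hsJ : s₀ ∉ I' ∩ S := fun h => hsI (Finset.mem_inter.1 h).1
  have hin : ∀ (σ : Fin d → Equiv.Perm (Fin l)) (α : Fin d), α ∈ I' →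
      x (α, HVN_inv (I' ∩ S) a b σ α a) = x (α, σ α b) ∧
      x (α, HVN_inv (I' ∩ S) a b σ α b) = x (α, σ α a) := by
    intro σ α hα
    by_cases hαS : α ∈ S
    · have hm : α ∈ I' ∩ S := Finset.mem_inter.2 ⟨hα, hαS⟩
      have h4 : HVN_inv (I' ∩ S) a b σ α = σ α * Equiv.swap a b := by
        unfold HVN_inv
        rw [if_pos hm]
      rw [h4, Equiv.Perm.mul_apply, Equiv.Perm.mul_apply, Equiv.swap_apply_left,
        Equiv.swap_apply_right]
      exact ⟨rfl, rfl⟩
    · exact ⟨hx α hαS _ _, hx α hαS _ _⟩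
  have hout : ∀ (σ : Fin d → Equiv.Perm (Fin l)) (α : Fin d) (k : Fin l), α ∉ I' →
      x (α, HVN_inv (I' ∩ S) a b σ α k) = x (α, σ α k) := by
    intro σ α k hα
    have h4 : HVN_inv (I' ∩ S) a b σ α = σ α := by
      unfold HVN_inv
      rw [if_neg (fun h => hα (Finset.mem_inter.1 h).1)]
    rw [h4]
  refine Finset.sum_involution (fun σ _ => HVN_inv (I' ∩ S) a b σ) ?_ ?_ ?_ ?_
  · intro σ _
    rw [PVN_nw K S A (I' ∩ S) s₀ a b hab hJA hsJ Finset.inter_subset_right σ]
    have hprod : ∏ i, t (c i) (fun α => x (α, HVN_inv (I' ∩ S) a b σ α i))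
        = ∏ i, t (c i) (fun α => x (α, σ α i)) := by
      refine HVN_prod _ _ a b hab ?_ ?_
      · intro i hia hib
        have h2 : ∀ α, HVN_inv (I' ∩ S) a b σ α i = σ α i := by
          intro α
          unfold HVN_inv
          split_ifs
          · rw [Equiv.Perm.mul_apply, Equiv.swap_apply_of_ne_of_ne hia hib]
          · rfl
        have h3 : ∀ α, x (α, HVN_inv (I' ∩ S) a b σ α i) = x (α, σ α i) := fun α => by rw [h2]
        show t (c i) (fun α => x (α, HVN_inv (I' ∩ S) a b σ α i)) = t (c i) (fun α => x (α, σ α i))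
        exact congrArg _ (funext h3)
      · show t (c a) _ * t (c b) _ = t (c a) _ * t (c b) _
        rw [← hc, htu, htu, htu, htu, ← Finset.prod_mul_distrib, ← Finset.prod_mul_distrib]
        refine Finset.prod_congr rfl fun L hL => ?_
        rcases hpart L hL with hLI | hLI
        · have h3 : u L (fun α => x (α, HVN_inv (I' ∩ S) a b σ α a)) = u L (fun α => x (α, σ α b)) := by
            apply hu L hL
            intro α hα
            exact (hin σ α (hLI (Finset.mem_coe.1 hα))).1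
          have h5 : u L (fun α => x (α, HVN_inv (I' ∩ S) a b σ α b)) = u L (fun α => x (α, σ α a)) := by
            apply hu L hL
            intro α hα
            exact (hin σ α (hLI (Finset.mem_coe.1 hα))).2
          rw [h3, h5, mul_comm]
        · have h6 : ∀ k : Fin l, u L (fun α => x (α, HVN_inv (I' ∩ S) a b σ α k))
              = u L (fun α => x (α, σ α k)) := by
            intro k
            apply hu L hL
            intro α hα
            exact hout σ α k (Finset.disjoint_left.1 hLI (Finset.mem_coe.1 hα))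
          rw [h6, h6]
    rw [hprod]
    ring
  · intro σ _ _ h0
    obtain ⟨α, hα⟩ := hIne
    have h1 := congrFun h0 α
    have h2 : HVN_inv (I' ∩ S) a b σ α = σ α * Equiv.swap a b := if_pos hα
    rw [h2, mul_eq_left, Equiv.swap_eq_one_iff] at h1
    exact hab h1
  · intro σ _
    exact Finset.mem_univ _
  · intro σ _
    funext α
    show HVN_inv (I' ∩ S) a b (HVN_inv (I' ∩ S) a b σ) α = σ α
    unfold HVN_inv
    split_ifs with h
    · rw [mul_assoc, Equiv.swap_mul_self, mul_one]
    · rfl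

end Pool.Agent.helper57.MS
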